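import Mathlib

/-!
# Sets of vertices whose edges are told apart by the adjacency to the other vertices

`Valid G U S`: each edge inside `S ⊆ U` has a vertex of `U \ S` adjacent to exactly one of its ends.
-/

set_option autoImplicit false

namespace Run7.h212.LMD

open Finset

variable {V : Type}

/-- `w` tells `u` and `v` apart: it is adjacent to exactly one of them. -/
def Sep (G : SimpleGraph V) (w u v : V) : Prop := ¬ (G.Adj w u ↔ G.Adj w v)

theorem Sep.symm {G : SimpleGraph V} {w u v : V} (h : Sep G w u v) : Sep G w v u :=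
  fun h' => h h'.symm

/-- Each edge inside `S ⊆ U` is told apart by a vertex of `U \ S`. -/
def Valid [DecidableEq V] (G : SimpleGraph V) (U S : Finset V) : Prop :=
  S ⊆ U ∧ ∀ u ∈ S, ∀ v ∈ S, G.Adj u v → ∃ w ∈ U \ S, Sep G w u v

/-- `Q` is a clique with `k` vertices. -/
def IsK (G : SimpleGraph V) (k : ℕ) (Q : Finset V) : Prop :=
  Q.card = k ∧ ∀ a ∈ Q, ∀ b ∈ Q, a ≠ b → G.Adj a b

/-- `Q` is a clique with `k` vertices and a connected component of the subgraph induced by `U`. -/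
def Isol (G : SimpleGraph V) (k : ℕ) (U Q : Finset V) : Prop :=
  Q ⊆ U ∧ IsK G k Q ∧ ∀ q ∈ Q, ∀ u ∈ U, G.Adj q u → u ∈ Q

/-- No component of the subgraph induced by `U` is a clique with `k` vertices. -/
def Good (G : SimpleGraph V) (k : ℕ) (U : Finset V) : Prop := ∀ Q, ¬ Isol G k U Q

/-- No clique with `k + 1` vertices. -/
def Free (G : SimpleGraph V) (k : ℕ) : Prop :=
  ∀ Q, IsK G k Q → ∀ x, (∀ q ∈ Q, G.Adj x q) → False

open Classical in
/-- the components of `U` which are cliques with `k` vertices -/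
noncomputable def KK (G : SimpleGraph V) (k : ℕ) (U : Finset V) : Finset (Finset V) :=
  U.powerset.filter (Isol G k U)

theorem mem_KK {G : SimpleGraph V} {k : ℕ} {U Q : Finset V} : Q ∈ KK G k U ↔ Isol G k U Q := by
  classical
  unfold KK
  rw [mem_filter, mem_powerset]
  exact ⟨fun h => h.2, fun h => ⟨h.1, h⟩⟩

theorem Isol.eq {G : SimpleGraph V} {k : ℕ} {U Q Q' : Finset V} (h : Isol G k U Q)
    (h' : Isol G k U Q') {a : V} (ha : a ∈ Q) (ha' : a ∈ Q') : Q = Q' := by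
  apply subset_antisymm
  · intro b hb
    by_cases e : a = b
    · rwa [← e]
    · exact h'.2.2 a ha' b (h.1 hb) (h.2.1.2 a ha b hb e)
  · intro b hb
    by_cases e : a = b
    · rwa [← e]
    · exact h.2.2 a ha b (h'.1 hb) (h'.2.1.2 a ha' b hb e)

theorem good_rest [DecidableEq V] {G : SimpleGraph V} {k : ℕ} (hk : 1 ≤ k) (B : Finset V) :
    Good G k (B \ (KK G k B).biUnion id) := by
  intro Q hQ
  have hB : Isol G k B Q := by
    refine ⟨fun q hq => (mem_sdiff.1 (hQ.1 hq)).1, hQ.2.1, fun q hq u hu ha => ?_⟩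
    by_cases h : u ∈ (KK G k B).biUnion id
    · exfalso
      obtain ⟨Q', hQ', huQ'⟩ := mem_biUnion.1 h
      have h1 := mem_KK.1 hQ'
      have h2 := mem_sdiff.1 (hQ.1 hq)
      exact h2.2 (mem_biUnion.2 ⟨Q', hQ', h1.2.2 u huQ' q h2.1 ha.symm⟩)
    · exact hQ.2.2 q hq u (mem_sdiff.2 ⟨hu, h⟩) ha
  have hne : Q.Nonempty := by
    rw [← card_pos, hQ.2.1.1]
    exact hk
  obtain ⟨q, hq⟩ := hne
  exact (mem_sdiff.1 (hQ.1 hq)).2 (mem_biUnion.2 ⟨Q, mem_KK.2 hB, hq⟩)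

/-- Gluing: `T ⊆ R ⊆ U`, everything about `T` and about chosen subsets of the clique components of
`U \ R` is told apart by `R \ T`, and the rest of `U \ R` is treated by induction. -/
theorem glue [DecidableEq V] {G : SimpleGraph V} {k : ℕ} (hk : 1 ≤ k) {U R T : Finset V} (hRU : R ⊆ U)
    (hTR : T ⊆ R) (hRne : R.Nonempty)
    (IH : ∀ B : Finset V, B.card < U.card → Good G k B →
      ∃ S, Valid G B S ∧ B.card ≤ (k - 1) * S.card)
    (hTT : ∀ u ∈ T, ∀ v ∈ T, G.Adj u v → ∃ w ∈ R \ T, Sep G w u v)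
    (hTB : ∀ u ∈ T, ∀ z ∈ U \ R, G.Adj u z → ∃ w ∈ R \ T, Sep G w u z)
    (f : Finset V → ℤ)
    (hσ : ∀ Q ∈ KK G k (U \ R), ∃ s ⊆ Q,
      (∀ u ∈ s, ∀ v ∈ s, G.Adj u v → ∃ w ∈ R \ T, Sep G w u v) ∧
        f Q ≤ ((k : ℤ) - 1) * s.card - k) :
    ∃ S, Valid G U S ∧ (U.card : ℤ) + ((k : ℤ) - 1) * T.card - R.card +
      ∑ Q ∈ KK G k (U \ R), f Q ≤ ((k : ℤ) - 1) * S.card := by
  classical
  choose! σ hσ1 hσ2 hσ3 using hσ
  set B := U \ R with hB
  set P := (KK G k B).biUnion id with hP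
  have hPB : P ⊆ B := by
    intro a ha
    obtain ⟨Q, hQ, haQ⟩ := mem_biUnion.1 ha
    exact (mem_KK.1 hQ).1 haQ
  have hdisj : ∀ Q ∈ KK G k B, ∀ Q' ∈ KK G k B, Q ≠ Q' → Disjoint Q Q' := by
    intro Q hQ Q' hQ' hne
    rw [Finset.disjoint_left]
    intro a ha ha'
    exact hne ((mem_KK.1 hQ).eq (mem_KK.1 hQ') ha ha')
  have hcB : B.card + R.card = U.card := card_sdiff_add_card_eq_card hRU
  have hcP : P.card = ∑ Q ∈ KK G k B, k := by
    rw [hP, card_biUnion (t := id) hdisj]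
    exact sum_congr rfl fun Q hQ => (mem_KK.1 hQ).2.1.1
  have hcB' : (B \ P).card + P.card = B.card := card_sdiff_add_card_eq_card hPB
  have hRpos : 0 < R.card := card_pos.2 hRne
  obtain ⟨S', hS', hcS'⟩ := IH (B \ P) (by omega) (good_rest hk B)
  set Z := (KK G k B).biUnion σ with hZ
  have hZP : Z ⊆ P := by
    intro a ha
    obtain ⟨Q, hQ, haQ⟩ := mem_biUnion.1 ha
    exact mem_biUnion.2 ⟨Q, hQ, hσ1 Q hQ haQ⟩
  have hcZ : Z.card = ∑ Q ∈ KK G k B, (σ Q).card := by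
    rw [hZ, card_biUnion]
    intro Q hQ Q' hQ' hne
    exact disjoint_of_subset_left (hσ1 Q hQ) (disjoint_of_subset_right (hσ1 Q' hQ')
      (hdisj Q hQ Q' hQ' hne))
  have hSB : S' ∪ Z ⊆ B := union_subset (hS'.1.trans sdiff_subset) (hZP.trans hPB)
  have hd1 : Disjoint S' Z := by
    rw [Finset.disjoint_left]
    intro a ha ha'
    exact (mem_sdiff.1 (hS'.1 ha)).2 (hZP ha')
  have hd2 : Disjoint T (S' ∪ Z) := by
    rw [Finset.disjoint_left]
    intro a ha ha'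
    exact (mem_sdiff.1 (hSB ha')).2 (hTR ha)
  refine ⟨T ∪ (S' ∪ Z), ⟨union_subset (hTR.trans hRU) (hSB.trans sdiff_subset), ?_⟩, ?_⟩
  · -- validity
    have hw1 : ∀ w ∈ R \ T, w ∈ U \ (T ∪ (S' ∪ Z)) := by
      intro w hw
      obtain ⟨h1, h2⟩ := mem_sdiff.1 hw
      refine mem_sdiff.2 ⟨hRU h1, fun h => ?_⟩
      rcases mem_union.1 h with h | h
      · exact h2 h
      · exact (mem_sdiff.1 (hSB h)).2 h1
    have hTB' : ∀ u ∈ T, ∀ v ∈ S' ∪ Z, G.Adj u v → ∃ w ∈ U \ (T ∪ (S' ∪ Z)), Sep G w u v := by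
      intro u hu v hv ha
      obtain ⟨w, hw, hs⟩ := hTB u hu v (hSB hv) ha
      exact ⟨w, hw1 w hw, hs⟩
    have hno : ∀ u ∈ S', ∀ v ∈ Z, ¬ G.Adj u v := by
      intro u hu v hv ha
      obtain ⟨Q, hQ, hvQ⟩ := mem_biUnion.1 hv
      have h1 := mem_sdiff.1 (hS'.1 hu)
      exact h1.2 (mem_biUnion.2 ⟨Q, hQ, (mem_KK.1 hQ).2.2 v (hσ1 Q hQ hvQ) u h1.1 ha.symm⟩)
    have hBB : ∀ u ∈ S' ∪ Z, ∀ v ∈ S' ∪ Z, G.Adj u v →
        ∃ w ∈ U \ (T ∪ (S' ∪ Z)), Sep G w u v := by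
      intro u hu v hv ha
      rcases mem_union.1 hu with hu | hu
      · rcases mem_union.1 hv with hv | hv
        · obtain ⟨w, hw, hs⟩ := hS'.2 u hu v hv ha
          obtain ⟨h1, h2⟩ := mem_sdiff.1 hw
          obtain ⟨h3, h4⟩ := mem_sdiff.1 h1
          refine ⟨w, mem_sdiff.2 ⟨(mem_sdiff.1 h3).1, fun h => ?_⟩, hs⟩
          rcases mem_union.1 h with h | h
          · exact (mem_sdiff.1 h3).2 (hTR h)
          · rcases mem_union.1 h with h | h
            · exact h2 h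
            · exact h4 (hZP h)
        · exact absurd ha (hno u hu v hv)
      · rcases mem_union.1 hv with hv | hv
        · exact absurd ha.symm (hno v hv u hu)
        · obtain ⟨Q, hQ, huQ⟩ := mem_biUnion.1 hu
          obtain ⟨Q', hQ', hvQ'⟩ := mem_biUnion.1 hv
          have h1 : u ∈ Q' := (mem_KK.1 hQ').2.2 v (hσ1 Q' hQ' hvQ') u
            ((mem_KK.1 hQ).1 (hσ1 Q hQ huQ)) ha.symm
          have h2 : Q = Q' := (mem_KK.1 hQ).eq (mem_KK.1 hQ') (hσ1 Q hQ huQ) h1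
          subst h2
          obtain ⟨w, hw, hs⟩ := hσ2 Q hQ u huQ v hvQ' ha
          exact ⟨w, hw1 w hw, hs⟩
    intro u hu v hv ha
    rcases mem_union.1 hu with hu | hu
    · rcases mem_union.1 hv with hv | hv
      · obtain ⟨w, hw, hs⟩ := hTT u hu v hv ha
        exact ⟨w, hw1 w hw, hs⟩
      · exact hTB' u hu v hv ha
    · rcases mem_union.1 hv with hv | hv
      · obtain ⟨w, hw, hs⟩ := hTB' v hv u hu ha.symm
        exact ⟨w, hw, hs.symm⟩
      · exact hBB u hu v hv ha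
  · -- counting
    rw [card_union_of_disjoint hd2, card_union_of_disjoint hd1]
    have hsum : ∑ Q ∈ KK G k B, f Q ≤ ∑ Q ∈ KK G k B, (((k : ℤ) - 1) * (σ Q).card - k) :=
      sum_le_sum fun Q hQ => hσ3 Q hQ
    have h1 : ∑ Q ∈ KK G k B, (((k : ℤ) - 1) * (σ Q).card - k) =
        ((k : ℤ) - 1) * Z.card - P.card := by
      rw [hcZ, hcP, sum_sub_distrib, ← mul_sum]
      push_cast
      rfl
    have h2 : ((k - 1 : ℕ) : ℤ) = (k : ℤ) - 1 := by
      push_cast [Nat.cast_sub hk]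
      ring
    have h3 : ((B \ P).card : ℤ) ≤ ((k : ℤ) - 1) * S'.card := by
      rw [← h2]
      exact_mod_cast hcS'
    have h4 : (((B \ P).card : ℤ)) + P.card + R.card = U.card := by
      have : (B \ P).card + P.card + R.card = U.card := by omega
      exact_mod_cast this
    push_cast
    rw [h1] at hsum
    nlinarith

end Run7.h212.LMD
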