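import Mathlib
import Pool.Agent.Run7.h212.LMD.Basic

/-!
# Large sets of vertices whose edges are told apart from outside

If `G` has no clique with `k + 1` vertices, `k ≥ 3`, and no component of the subgraph induced by `U`
is a clique with `k` vertices, then there is `S ⊆ U` with `|U| ≤ (k - 1) |S|` such that each edge
inside `S` is told apart by a vertex of `U \ S`.
-/

set_option autoImplicit false

namespace Run7.h212.LMD

open Finset

variable {V : Type} [DecidableEq V] {G : SimpleGraph V}

/-- `Q` is a clique. -/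
def Clq (G : SimpleGraph V) (Q : Finset V) : Prop := ∀ a ∈ Q, ∀ b ∈ Q, a ≠ b → G.Adj a b

omit [DecidableEq V] in
theorem clq_singleton (a : V) : Clq G {a} := by
  intro x hx y hy hxy
  rw [mem_singleton] at hx hy
  exact absurd (hx.trans hy.symm) hxy

/-- The easy bound: if all the cliques inside `U` have at most `m` vertices. -/
theorem easy (m : ℕ) (U : Finset V) (h : ∀ Q ⊆ U, Clq G Q → Q.card ≤ m) :
    ∃ S, Valid G U S ∧ U.card ≤ m * S.card := by
  classical
  induction' hn : U.card using Nat.strong_induction_on with n ih generalizing U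
  rcases U.eq_empty_or_nonempty with rfl | ⟨a, ha⟩
  · refine ⟨∅, ⟨subset_rfl, by simp⟩, ?_⟩
    rw [← hn]; simp
  · -- a largest clique
    have hne : (U.powerset.filter (Clq G)).Nonempty := by
      refine ⟨{a}, ?_⟩
      rw [mem_filter, mem_powerset]
      exact ⟨by simpa using ha, clq_singleton a⟩
    obtain ⟨Q, hQ, hmax⟩ := exists_max_image _ card hne
    rw [mem_filter, mem_powerset] at hQ
    obtain ⟨hQU, hQc⟩ := hQ
    have hQpos : 0 < Q.card := by
      have := hmax {a} (by
        rw [mem_filter, mem_powerset]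
        exact ⟨by simpa using ha, clq_singleton a⟩)
      rw [card_singleton] at this
      omega
    obtain ⟨t, ht⟩ := card_pos.1 hQpos
    have hc : (U \ Q).card + Q.card = U.card := card_sdiff_add_card_eq_card hQU
    obtain ⟨S', hS', hcS'⟩ := ih (U \ Q).card (by omega) (U \ Q)
      (fun Q' hQ' => h Q' (hQ'.trans sdiff_subset)) rfl
    have htS' : t ∉ S' := fun h' => (mem_sdiff.1 (hS'.1 h')).2 ht
    have hQm := h Q hQU hQc
    have key : ∀ z ∈ S', G.Adj t z → ∃ w ∈ U \ insert t S', Sep G w t z := by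
      intro z hz ha'
      have hz1 := mem_sdiff.1 (hS'.1 hz)
      by_contra hcon
      push Not at hcon
      have hall : ∀ q ∈ Q, G.Adj z q := by
        intro q hq
        by_cases hqt : q = t
        · rw [hqt]; exact ha'.symm
        · have h1 : q ∈ U \ insert t S' := by
            refine mem_sdiff.2 ⟨hQU hq, fun h' => ?_⟩
            rcases mem_insert.1 h' with h' | h'
            · exact hqt h'
            · exact (mem_sdiff.1 (hS'.1 h')).2 hq
          have h2 := hcon q h1
          unfold Sep at h2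
          rw [not_not] at h2
          exact (h2.1 (hQc q hq t ht hqt)).symm
      have h3 := hmax (insert z Q) (by
        rw [mem_filter, mem_powerset]
        refine ⟨insert_subset hz1.1 hQU, ?_⟩
        intro x hx y hy hxy
        rcases mem_insert.1 hx with hx' | hx'
        · rcases mem_insert.1 hy with hy' | hy'
          · exact absurd (hx'.trans hy'.symm) hxy
          · rw [hx']; exact hall y hy'
        · rcases mem_insert.1 hy with hy' | hy'
          · rw [hy']; exact (hall x hx').symm
          · exact hQc x hx' y hy' hxy)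
      rw [card_insert_of_notMem hz1.2] at h3
      omega
    refine ⟨insert t S', ⟨insert_subset (hQU ht) (hS'.1.trans sdiff_subset), ?_⟩, ?_⟩
    · intro u hu v hv ha'
      rcases mem_insert.1 hu with hu' | hu'
      · rcases mem_insert.1 hv with hv' | hv'
        · exact absurd (hu'.trans hv'.symm) ha'.ne
        · rw [hu'] at ha' ⊢
          exact key v hv' ha'
      · rcases mem_insert.1 hv with hv' | hv'
        · rw [hv'] at ha' ⊢
          obtain ⟨w, hw, hs⟩ := key u hu' ha'.symm
          exact ⟨w, hw, hs.symm⟩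
        · obtain ⟨w, hw, hs⟩ := hS'.2 u hu' v hv' ha'
          obtain ⟨h1, h2⟩ := mem_sdiff.1 hw
          obtain ⟨h3, h4⟩ := mem_sdiff.1 h1
          refine ⟨w, mem_sdiff.2 ⟨h3, fun h' => ?_⟩, hs⟩
          rcases mem_insert.1 h' with h' | h'
          · rw [h'] at h4; exact h4 ht
          · exact h2 h'
    · rw [card_insert_of_notMem htS', mul_add, mul_one]
      omega

/-- `z` is adjacent to all the vertices of the clique `Q` except `p`. -/
def Clone (G : SimpleGraph V) (Q : Finset V) (p z : V) : Prop :=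
  ¬ G.Adj z p ∧ ∀ q ∈ Q, q ≠ p → G.Adj z q

theorem Clone.nadj {k : ℕ} (hfree : Free G k) {Q : Finset V} (hQ : IsK G k Q) {p x z : V}
    (hp : p ∈ Q) (hx : Clone G Q p x) (hz : Clone G Q p z) (hxQ : x ∉ Q) : ¬ G.Adj x z := by
  intro ha
  refine hfree (insert x (Q.erase p)) ⟨?_, ?_⟩ z ?_
  · rw [card_insert_of_notMem (fun h => hxQ (mem_of_mem_erase h)), card_erase_of_mem hp, hQ.1]
    have : 0 < Q.card := card_pos.2 ⟨p, hp⟩
    rw [hQ.1] at this
    omega
  · intro a ha' b hb hab
    rcases mem_insert.1 ha' with h1 | h1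
    · rcases mem_insert.1 hb with h2 | h2
      · exact absurd (h1.trans h2.symm) hab
      · rw [h1]
        exact hx.2 b (mem_of_mem_erase h2) (ne_of_mem_erase h2)
    · rcases mem_insert.1 hb with h2 | h2
      · rw [h2]
        exact (hx.2 a (mem_of_mem_erase h1) (ne_of_mem_erase h1)).symm
      · exact hQ.2 a (mem_of_mem_erase h1) b (mem_of_mem_erase h2) hab
  · intro q hq
    rcases mem_insert.1 hq with h1 | h1
    · rw [h1]
      exact ha.symm
    · exact hz.2 q (mem_of_mem_erase h1) (ne_of_mem_erase h1)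

omit [DecidableEq V] in
theorem exists_nadj {k : ℕ} (hfree : Free G k) {Q : Finset V} (hQ : IsK G k Q) (x : V) :
    ∃ b ∈ Q, ¬ G.Adj x b := by
  by_contra h
  push Not at h
  exact hfree Q hQ x h

/-- two elements of a clique told apart by `x` -/
theorem pair_sep {x a b : V} (ha : G.Adj x a) (hb : ¬ G.Adj x b) :
    ∀ u ∈ ({a, b} : Finset V), ∀ v ∈ ({a, b} : Finset V), G.Adj u v → Sep G x u v := by
  intro u hu v hv huv
  have hS : Sep G x a b := fun h => hb (h.1 ha)
  rw [mem_insert, mem_singleton] at hu hv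
  rcases hu with rfl | rfl
  · rcases hv with rfl | rfl
    · exact absurd huv (G.loopless.irrefl _)
    · exact hS
  · rcases hv with rfl | rfl
    · exact hS.symm
    · exact absurd huv (G.loopless.irrefl _)

omit [DecidableEq V] in
theorem isol_of {k : ℕ} {U Q : Finset V} (h1 : Q ⊆ U) (h2 : IsK G k Q)
    (h3 : Good G k U) : ∃ q ∈ Q, ∃ u ∈ U, G.Adj q u ∧ u ∉ Q := by
  by_contra h
  push Not at h
  exact h3 Q ⟨h1, h2, fun q hq u hu ha => h q hq u hu ha⟩

/-- Every vertex of a clique with `k` vertices whose removal leaves a good set has a clone. -/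
theorem clones {k : ℕ} (hk : 3 ≤ k) (hfree : Free G k) {U : Finset V} (hU : Good G k U)
    (IH : ∀ B : Finset V, B.card < U.card → Good G k B →
      ∃ S, Valid G B S ∧ B.card ≤ (k - 1) * S.card)
    (NC : ∀ S, Valid G U S → ((k : ℤ) - 1) * S.card < U.card)
    {Q : Finset V} (hQU : Q ⊆ U) (hQ : IsK G k Q) (hUQ : Good G k (U \ Q)) :
    ∀ p ∈ Q, ∃ z ∈ U \ Q, Clone G Q p z := by
  classical
  have conflict : ∀ x ∈ U \ Q, ∀ t₁ ∈ Q, ∀ t₂ ∈ Q, G.Adj x t₁ → ¬ G.Adj x t₂ →
      ∃ z ∈ U \ Q, z ≠ x ∧ ((Clone G Q t₂ z ∧ G.Adj z x) ∨ Clone G Q t₁ z) := by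
    intro x hx t₁ ht₁ t₂ ht₂ ha₁ ha₂
    obtain ⟨hxU, hxQ⟩ := mem_sdiff.1 hx
    have hne : t₁ ≠ t₂ := fun h => ha₂ (h ▸ ha₁)
    by_contra hcon
    push Not at hcon
    have hTQ : ({t₁, t₂} : Finset V) ⊆ Q := by
      intro a ha
      rw [mem_insert, mem_singleton] at ha
      rcases ha with rfl | rfl
      · exact ht₁
      · exact ht₂
    have hxRT : x ∈ insert x Q \ {t₁, t₂} :=
      mem_sdiff.2 ⟨mem_insert_self _ _, fun h => hxQ (hTQ h)⟩
    obtain ⟨S, hS, hcS⟩ := glue (G := G) (k := k) (by omega) (U := U) (R := insert x Q)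
      (T := {t₁, t₂}) (insert_subset hxU hQU) (hTQ.trans (subset_insert _ _))
      ⟨x, mem_insert_self _ _⟩ IH
      (fun u hu v hv huv => ⟨x, hxRT, pair_sep ha₁ ha₂ u hu v hv huv⟩)
      (by
        intro u hu z hz huz
        by_contra hno
        push Not at hno
        obtain ⟨hzU, hzR⟩ := mem_sdiff.1 hz
        have hzx : z ≠ x := fun h => hzR (h ▸ mem_insert_self _ _)
        have hzQ : z ∉ Q := fun h => hzR (mem_insert_of_mem h)
        have hq : ∀ q ∈ Q, q ∉ ({t₁, t₂} : Finset V) → G.Adj z q := by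
          intro q hq hqT
          have h1 := hno q (mem_sdiff.2 ⟨mem_insert_of_mem hq, hqT⟩)
          unfold Sep at h1
          rw [not_not] at h1
          have h2 : G.Adj q u := hQ.2 q hq u (hTQ hu) (fun h => hqT (h ▸ hu))
          exact (h1.1 h2).symm
        have hxz := hno x hxRT
        unfold Sep at hxz
        rw [not_not] at hxz
        obtain ⟨b, hb, hzb⟩ := exists_nadj hfree hQ z
        rw [mem_insert, mem_singleton] at hu
        have hbT : b ∈ ({t₁, t₂} : Finset V) := by
          by_contra h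
          exact hzb (hq b hb h)
        rw [mem_insert, mem_singleton] at hbT
        rcases hu with rfl | rfl
        · -- `u = t₁`
          have hb2 : b = t₂ := by
            rcases hbT with rfl | h
            · exact absurd huz.symm hzb
            · exact h
          subst hb2
          have h1 := (hcon z (mem_sdiff.2 ⟨hzU, hzQ⟩) hzx).1
          refine h1 ⟨hzb, fun q hqQ hqb => ?_⟩ (hxz.1 ha₁).symm
          by_cases hq1 : q = u
          · rw [hq1]; exact huz.symm
          · exact hq q hqQ (by rw [mem_insert, mem_singleton]; tauto)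
        · have hb1 : b = t₁ := by
            rcases hbT with h | rfl
            · exact h
            · exact absurd huz.symm hzb
          subst hb1
          have h1 := (hcon z (mem_sdiff.2 ⟨hzU, hzQ⟩) hzx).2
          refine h1 ⟨hzb, fun q hqQ hqb => ?_⟩
          by_cases hq1 : q = u
          · rw [hq1]; exact huz.symm
          · exact hq q hqQ (by rw [mem_insert, mem_singleton]; tauto))
      (fun _ => 0)
      (by
        intro Q' hQ'
        rw [mem_KK] at hQ'
        have hQ'Q : Q' ⊆ U \ Q := by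
          intro a ha
          obtain ⟨h1, h2⟩ := mem_sdiff.1 (hQ'.1 ha)
          exact mem_sdiff.2 ⟨h1, fun h => h2 (mem_insert_of_mem h)⟩
        obtain ⟨a, haQ', u, hu, hau, huQ'⟩ := isol_of hQ'Q hQ'.2.1 hUQ
        have hux : u = x := by
          by_contra hne'
          obtain ⟨h1, h2⟩ := mem_sdiff.1 hu
          refine huQ' (hQ'.2.2 a haQ' u (mem_sdiff.2 ⟨h1, fun h => ?_⟩) hau)
          rcases mem_insert.1 h with h | h
          · exact hne' h
          · exact h2 h
        subst hux
        obtain ⟨b, hb, hub⟩ := exists_nadj hfree hQ'.2.1 u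
        have hab : a ≠ b := fun h => hub (h ▸ hau.symm)
        refine ⟨{a, b}, ?_, ?_, ?_⟩
        · intro c hc
          rw [mem_insert, mem_singleton] at hc
          rcases hc with rfl | rfl
          · exact haQ'
          · exact hb
        · intro c hc d hd hcd
          exact ⟨u, hxRT, pair_sep hau.symm hub c hc d hd hcd⟩
        · rw [card_pair hab]
          have : (3 : ℤ) ≤ k := by exact_mod_cast hk
          push_cast
          linarith)
    have h1 := NC S hS
    rw [card_pair hne, card_insert_of_notMem hxQ, hQ.1, sum_const_zero] at hcS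
    have : (3 : ℤ) ≤ k := by exact_mod_cast hk
    push_cast at hcS
    linarith
  -- a first clone
  obtain ⟨q₀, hq₀, x₀, hx₀, ha₀, hx₀Q⟩ := isol_of hQU hQ hU
  obtain ⟨b₀, hb₀, hnb₀⟩ := exists_nadj hfree hQ x₀
  obtain ⟨z₀, hz₀, -, hcl⟩ := conflict x₀ (mem_sdiff.2 ⟨hx₀, hx₀Q⟩) q₀ hq₀ b₀ hb₀ ha₀.symm hnb₀
  obtain ⟨q, hq, x, hx, hxq⟩ : ∃ q ∈ Q, ∃ x ∈ U \ Q, Clone G Q q x := by
    rcases hcl with hcl | hcl
    · exact ⟨b₀, hb₀, z₀, hz₀, hcl.1⟩
    · exact ⟨q₀, hq₀, z₀, hz₀, hcl⟩
  intro p hp
  by_cases hpq : p = q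
  · rw [hpq]; exact ⟨x, hx, hxq⟩
  · obtain ⟨z, hz, -, hcl⟩ := conflict x hx p hp q hq (hxq.2 p hp hpq) hxq.1
    rcases hcl with hcl | hcl
    · exact absurd hcl.2 (hcl.1.nadj hfree hQ hq hxq (mem_sdiff.1 hz).2)
    · exact ⟨z, hz, hcl⟩

end Run7.h212.LMD
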