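import Mathlib
import Pool.Agent.Run7.h212.LMD.Main

/-!
# The induction: a good set has a large subset whose edges are told apart from outside
-/

set_option autoImplicit false

namespace Run7.h212.LMD

open Finset

variable {V : Type} [DecidableEq V] {G : SimpleGraph V}

/-- Two cliques, each a component after removal of the other one. -/
theorem two_cliques {k : ℕ} (hk : 3 ≤ k) (hfree : Free G k) {U : Finset V} (hU : Good G k U)
    (IH : ∀ B : Finset V, B.card < U.card → Good G k B →
      ∃ S, Valid G B S ∧ B.card ≤ (k - 1) * S.card)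
    (NC : ∀ S, Valid G U S → ((k : ℤ) - 1) * S.card < U.card)
    {Q₁ Q₂ : Finset V} (hQ₁U : Q₁ ⊆ U) (h1 : Isol G k (U \ Q₂) Q₁)
    (h2 : Isol G k (U \ Q₁) Q₂) : False := by
  classical
  have hdisj : ∀ a ∈ Q₁, a ∉ Q₂ := fun a ha => (mem_sdiff.1 (h1.1 ha)).2
  have hQ₂U : Q₂ ⊆ U := h2.1.trans sdiff_subset
  obtain ⟨a, ha, x, hx, hax, hxQ⟩ := isol_of hQ₁U h1.2.1 hU
  have hx2 : x ∈ Q₂ := by
    by_contra hx2
    exact hxQ (h1.2.2 a ha x (mem_sdiff.2 ⟨hx, hx2⟩) hax)
  obtain ⟨b, hb, hxb⟩ := exists_nadj hfree h1.2.1 x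
  have hab : a ≠ b := fun h => hxb (h ▸ hax.symm)
  obtain ⟨z, hz, hzx⟩ : ∃ z ∈ Q₂, z ≠ x := by
    apply exists_mem_ne
    rw [h2.2.1.1]
    omega
  have hza : z ≠ a := fun h => hdisj a ha (h ▸ hz)
  have hzb : z ≠ b := fun h => hdisj b hb (h ▸ hz)
  have hT : ({z, a, b} : Finset V) ⊆ Q₁ ∪ Q₂ := by
    intro c hc
    simp only [mem_insert, mem_singleton] at hc
    rcases hc with rfl | rfl | rfl
    · exact mem_union_right _ hz
    · exact mem_union_left _ ha
    · exact mem_union_left _ hb
  have hxRT : x ∈ (Q₁ ∪ Q₂) \ {z, a, b} := by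
    refine mem_sdiff.2 ⟨mem_union_right _ hx2, fun h => ?_⟩
    simp only [mem_insert, mem_singleton] at h
    rcases h with h | h | h
    · exact hzx h.symm
    · exact hxQ (h ▸ ha)
    · exact hxQ (h ▸ hb)
  have hzc : ∀ c ∈ Q₁, G.Adj z c → ∃ w ∈ (Q₁ ∪ Q₂) \ {z, a, b}, Sep G w z c := by
    intro c hc hzc
    obtain ⟨w, hw, hcw⟩ := exists_nadj hfree h2.2.1 c
    have hwz : w ≠ z := fun h => hcw (h ▸ hzc.symm)
    refine ⟨w, mem_sdiff.2 ⟨mem_union_right _ hw, fun h => ?_⟩, fun h => ?_⟩
    · simp only [mem_insert, mem_singleton] at h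
      rcases h with h | h | h
      · exact hwz h
      · exact hdisj a ha (h ▸ hw)
      · exact hdisj b hb (h ▸ hw)
    · exact hcw (h.1 (h2.2.1.2 w hw z hz hwz)).symm
  have hcardT : ({z, a, b} : Finset V).card = 3 := card_eq_three.2 ⟨z, a, b, hza, hzb, hab, rfl⟩
  have hcardR : (Q₁ ∪ Q₂).card = 2 * k := by
    rw [card_union_of_disjoint (Finset.disjoint_left.2 hdisj), h1.2.1.1, h2.2.1.1]
    ring
  obtain ⟨S, hS, hcS⟩ := glue (G := G) (k := k) (by omega) (U := U) (R := Q₁ ∪ Q₂)
    (T := {z, a, b}) (union_subset hQ₁U hQ₂U) hT ⟨a, mem_union_left _ ha⟩ IH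
    (by
      intro u hu v hv huv
      have hcase : ∀ c ∈ ({z, a, b} : Finset V), c = z ∨ c ∈ ({a, b} : Finset V) := by
        intro c hc
        simp only [mem_insert, mem_singleton] at hc ⊢
        exact hc
      have habQ : ∀ c ∈ ({a, b} : Finset V), c ∈ Q₁ := by
        intro c hc
        simp only [mem_insert, mem_singleton] at hc
        rcases hc with rfl | rfl
        · exact ha
        · exact hb
      rcases hcase u hu with hu' | hu'
      · rcases hcase v hv with hv' | hv'
        · exact absurd (hu'.trans hv'.symm) huv.ne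
        · rw [hu'] at huv ⊢
          exact hzc v (habQ v hv') huv
      · rcases hcase v hv with hv' | hv'
        · rw [hv'] at huv ⊢
          obtain ⟨w, hw, hs⟩ := hzc u (habQ u hu') huv.symm
          exact ⟨w, hw, hs.symm⟩
        · exact ⟨x, hxRT, pair_sep hax.symm hxb u hu' v hv' huv⟩)
    (by
      intro u hu z' hz' huz'
      obtain ⟨hz1, hz2⟩ := mem_sdiff.1 hz'
      exfalso
      rcases mem_union.1 (hT hu) with h | h
      · exact hz2 (mem_union_left _ (h1.2.2 u h z'
          (mem_sdiff.2 ⟨hz1, fun h' => hz2 (mem_union_right _ h')⟩) huz'))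
      · exact hz2 (mem_union_right _ (h2.2.2 u h z'
          (mem_sdiff.2 ⟨hz1, fun h' => hz2 (mem_union_left _ h')⟩) huz')))
    (fun _ => 0)
    (by
      intro Q' hQ'
      rw [mem_KK] at hQ'
      exfalso
      refine hU Q' ⟨hQ'.1.trans sdiff_subset, hQ'.2.1, fun q hq u hu hqu => ?_⟩
      obtain ⟨hq1, hq2⟩ := mem_sdiff.1 (hQ'.1 hq)
      by_cases hR : u ∈ Q₁ ∪ Q₂
      · exfalso
        rcases mem_union.1 hR with h | h
        · exact hq2 (mem_union_left _ (h1.2.2 u h q
            (mem_sdiff.2 ⟨hq1, fun h' => hq2 (mem_union_right _ h')⟩) hqu.symm))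
        · exact hq2 (mem_union_right _ (h2.2.2 u h q
            (mem_sdiff.2 ⟨hq1, fun h' => hq2 (mem_union_left _ h')⟩) hqu.symm))
      · exact hQ'.2.2 q hq u (mem_sdiff.2 ⟨hu, hR⟩) hqu)
  have h3 := NC S hS
  rw [hcardT, hcardR, sum_const_zero] at hcS
  have : (3 : ℤ) ≤ k := by exact_mod_cast hk
  push_cast at hcS
  linarith

theorem main {k : ℕ} (hk : 3 ≤ k) (hfree : Free G k) (U : Finset V) (hU : Good G k U) :
    ∃ S, Valid G U S ∧ U.card ≤ (k - 1) * S.card := by
  classical
  induction' hn : U.card using Nat.strong_induction_on with n ih generalizing U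
  subst hn
  have IH : ∀ B : Finset V, B.card < U.card → Good G k B →
      ∃ S, Valid G B S ∧ B.card ≤ (k - 1) * S.card := fun B hB hG => ih B.card hB B hG rfl
  have hk' : (3 : ℤ) ≤ k := by exact_mod_cast hk
  by_contra hcon
  push Not at hcon
  have NC : ∀ S, Valid G U S → ((k : ℤ) - 1) * S.card < U.card := by
    intro S hS
    have h1 := hcon S hS
    have h2 : ((k - 1 : ℕ) : ℤ) = (k : ℤ) - 1 := by
      rw [Nat.cast_sub (by omega)]
      simp
    rw [← h2]
    exact_mod_cast h1
  -- some clique with `k` vertices whose removal leaves a good set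
  obtain ⟨Q, hQU, hQ, hUQ⟩ : ∃ Q ⊆ U, IsK G k Q ∧ Good G k (U \ Q) := by
    by_cases hex : ∃ Q ⊆ U, IsK G k Q
    · obtain ⟨Q₁, hQ₁U, hQ₁⟩ := hex
      by_cases hg : Good G k (U \ Q₁)
      · exact ⟨Q₁, hQ₁U, hQ₁, hg⟩
      · unfold Good at hg
        push Not at hg
        obtain ⟨Q₂, hQ₂⟩ := hg
        refine ⟨Q₂, hQ₂.1.trans sdiff_subset, hQ₂.2.1, fun Q₃ hQ₃ => ?_⟩
        have hQ₁' : Q₁ ⊆ U \ Q₂ := fun a ha =>
          mem_sdiff.2 ⟨hQ₁U ha, fun h => (mem_sdiff.1 (hQ₂.1 h)).2 ha⟩
        by_cases hint : ∃ a ∈ Q₃, a ∈ Q₁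
        · obtain ⟨a, ha3, ha1⟩ := hint
          have hsub : Q₁ ⊆ Q₃ := by
            intro b hb
            by_cases hab : a = b
            · rw [← hab]; exact ha3
            · exact hQ₃.2.2 a ha3 b (hQ₁' hb) (hQ₁.2 a ha1 b hb hab)
          have heq : Q₁ = Q₃ := eq_of_subset_of_card_le hsub (by rw [hQ₃.2.1.1, hQ₁.1])
          rw [← heq] at hQ₃
          exact two_cliques hk hfree hU IH NC hQ₁U hQ₃ hQ₂
        · push Not at hint
          obtain ⟨c, hc, u, hu, hcu, huQ⟩ := isol_of (hQ₃.1.trans sdiff_subset) hQ₃.2.1 hU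
          have hu2 : u ∈ Q₂ := by
            by_contra hu2
            exact huQ (hQ₃.2.2 c hc u (mem_sdiff.2 ⟨hu, hu2⟩) hcu)
          obtain ⟨hc1, hc2⟩ := mem_sdiff.1 (hQ₃.1 hc)
          exact hc2 (hQ₂.2.2 u hu2 c (mem_sdiff.2 ⟨hc1, hint c hc⟩) hcu.symm)
    · exfalso
      push Not at hex
      obtain ⟨S, hS, hcS⟩ := easy (G := G) (k - 1) U (by
        intro Q hQU hQ
        by_contra hlt
        push Not at hlt
        obtain ⟨Q', hQ', hc⟩ := exists_subset_card_eq (show k ≤ Q.card by omega)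
        exact hex Q' (hQ'.trans hQU) ⟨hc, fun a ha b hb hab => hQ a (hQ' ha) b (hQ' hb) hab⟩)
      have := hcon S hS
      omega
  have hcl := clones hk hfree hU IH NC hQU hQ hUQ
  set M : Finset V := (U \ Q).filter fun z => ∃ p ∈ Q, Clone G Q p z with hM
  have hMU : M ⊆ U \ Q := filter_subset _ _
  have hMQ : ∀ a ∈ M, a ∉ Q := fun a ha => (mem_sdiff.1 (hMU ha)).2
  have hMc : ∀ a ∈ M, ∃ p ∈ Q, Clone G Q p a := fun a ha => (mem_filter.1 ha).2
  have hQM : ∀ a ∈ Q, a ∉ M := fun a ha h => hMQ a h ha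
  have hcardM : k ≤ M.card := by
    choose! g hg1 hg2 using hcl
    rw [← hQ.1]
    refine card_le_card_of_injOn g (fun p hp => ?_) ?_
    · exact mem_filter.2 ⟨hg1 p hp, p, hp, hg2 p hp⟩
    · intro p hp p' hp' heq
      by_contra hne
      exact (hg2 p hp).1 (heq ▸ (hg2 p' hp').2 p hp hne)
  have hcardR : (Q ∪ M).card = k + M.card := by
    rw [card_union_of_disjoint (Finset.disjoint_left.2 hQM), hQ.1]
  have hRU : Q ∪ M ⊆ U := union_subset hQU (hMU.trans sdiff_subset)
  have hnotM : ∀ z ∈ U \ (Q ∪ M), ∀ p ∈ Q, ¬ Clone G Q p z := by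
    intro z hz p hp hc
    obtain ⟨h1, h2⟩ := mem_sdiff.1 hz
    rw [mem_union, not_or] at h2
    exact h2.2 (mem_filter.2 ⟨mem_sdiff.2 ⟨h1, h2.1⟩, p, hp, hc⟩)
  -- the components of `U \ (Q ∪ M)` which are `k`-cliques not adjacent to `Q`
  set far : Finset V → Prop := fun Q' => ∀ q ∈ Q, ∀ a ∈ Q', ¬ G.Adj q a with hfar
  set N := ((KK G k (U \ (Q ∪ M))).filter far).card with hN
  have hQne : Q.Nonempty := by
    rw [← card_pos, hQ.1]; omega
  -- first option: `M` inside `S`
  have opt1 : ((k : ℤ) - 2) * M.card < k + N := by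
    obtain ⟨S, hS, hcS⟩ := glue (G := G) (k := k) (by omega) (U := U) (R := Q ∪ M)
      (T := M) hRU subset_union_right (hQne.mono subset_union_left) IH
      (by
        intro u hu v hv huv
        obtain ⟨p, hp, hcp⟩ := hMc u hu
        obtain ⟨p', hp', hcp'⟩ := hMc v hv
        by_cases hpp : p = p'
        · rw [← hpp] at hcp'
          exact absurd huv (hcp.nadj hfree hQ hp hcp' (hMQ u hu))
        · refine ⟨p, mem_sdiff.2 ⟨mem_union_left _ hp, hQM p hp⟩, fun h => ?_⟩
          exact hcp.1 (h.2 (hcp'.2 p hp hpp).symm).symm)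
      (by
        intro u hu z hz huz
        obtain ⟨p, hp, hcp⟩ := hMc u hu
        by_contra hno
        push Not at hno
        have hsame : ∀ q ∈ Q, (G.Adj q u ↔ G.Adj q z) := by
          intro q hq
          have h1 := hno q (mem_sdiff.2 ⟨mem_union_left _ hq, hQM q hq⟩)
          unfold Sep at h1
          rw [not_not] at h1
          exact h1
        refine hnotM z hz p hp ⟨fun h => hcp.1 ((hsame p hp).2 h.symm).symm, fun q hq hqp => ?_⟩
        exact ((hsame q hq).1 (hcp.2 q hq hqp).symm).symm)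
      (fun Q' => if far Q' then -1 else 0)
      (by
        intro Q' hQ'
        rw [mem_KK] at hQ'
        have hQ'ne : Q'.Nonempty := by
          rw [← card_pos, hQ'.2.1.1]; omega
        by_cases hf : far Q'
        · obtain ⟨a, ha⟩ := hQ'ne
          refine ⟨{a}, singleton_subset_iff.2 ha, ?_, ?_⟩
          · intro u hu v hv huv
            rw [mem_singleton] at hu hv
            exact absurd (hu.trans hv.symm) huv.ne
          · rw [if_pos hf, card_singleton]
            push_cast
            linarith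
        · rw [if_neg hf]
          simp only [hfar] at hf
          push Not at hf
          obtain ⟨q, hq, a, ha, hqa⟩ := hf
          obtain ⟨b, hb, hqb⟩ := exists_nadj hfree hQ'.2.1 q
          have hab : a ≠ b := fun h => hqb (h ▸ hqa)
          refine ⟨{a, b}, ?_, ?_, ?_⟩
          · intro c hc
            rw [mem_insert, mem_singleton] at hc
            rcases hc with rfl | rfl
            · exact ha
            · exact hb
          · intro c hc d hd hcd
            exact ⟨q, mem_sdiff.2 ⟨mem_union_left _ hq, hQM q hq⟩, pair_sep hqa hqb c hc d hd hcd⟩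
          · rw [card_pair hab]
            push_cast
            linarith)
    have h1 := NC S hS
    have h2 : ∑ Q' ∈ KK G k (U \ (Q ∪ M)), (if far Q' then (-1 : ℤ) else 0) = -N := by
      rw [← sum_filter, sum_const, hN]
      simp
    rw [h2, hcardR] at hcS
    push_cast at hcS
    linarith
  -- second option: `M` outside `S`
  obtain ⟨t₁, ht₁, t₂, ht₂, ht⟩ : ∃ t₁ ∈ Q, ∃ t₂ ∈ Q, t₁ ≠ t₂ := by
    apply one_lt_card.1
    rw [hQ.1]; omega
  have hTQ : ({t₁, t₂} : Finset V) ⊆ Q := by
    intro c hc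
    rw [mem_insert, mem_singleton] at hc
    rcases hc with rfl | rfl
    · exact ht₁
    · exact ht₂
  have hMRT : ∀ y ∈ M, y ∈ (Q ∪ M) \ {t₁, t₂} := fun y hy =>
    mem_sdiff.2 ⟨mem_union_right _ hy, fun h => hMQ y hy (hTQ h)⟩
  have opt2 : (k : ℤ) - 2 - M.card + k * (k - 2) * N < 0 := by
    obtain ⟨S, hS, hcS⟩ := glue (G := G) (k := k) (by omega) (U := U) (R := Q ∪ M)
      (T := {t₁, t₂}) hRU (hTQ.trans subset_union_left) (hQne.mono subset_union_left) IH
      (by
        intro u hu v hv huv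
        obtain ⟨y, hy, hyc⟩ := hcl t₁ ht₁
        have hyM : y ∈ M := mem_filter.2 ⟨hy, t₁, ht₁, hyc⟩
        have hs := pair_sep (G := G) (hyc.2 t₂ ht₂ ht.symm) hyc.1
        rw [pair_comm] at hu hv
        exact ⟨y, hMRT y hyM, hs u hu v hv huv⟩)
      (by
        intro u hu z hz huz
        by_contra hno
        push Not at hno
        have hq : ∀ q ∈ Q, q ∉ ({t₁, t₂} : Finset V) → G.Adj z q := by
          intro q hq hqT
          have h1 := hno q (mem_sdiff.2 ⟨mem_union_left _ hq, hqT⟩)
          unfold Sep at h1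
          rw [not_not] at h1
          have h2 : G.Adj q u := hQ.2 q hq u (hTQ hu) (fun h => hqT (h ▸ hu))
          exact (h1.1 h2).symm
        obtain ⟨b, hb, hzb⟩ := exists_nadj hfree hQ z
        refine hnotM z hz b hb ⟨hzb, fun q hqQ hqb => ?_⟩
        have hbT : b ∈ ({t₁, t₂} : Finset V) := by
          by_contra h
          exact hzb (hq b hb h)
        have hub : u ≠ b := fun h => hzb (h ▸ huz.symm)
        by_cases hqT : q ∈ ({t₁, t₂} : Finset V)
        · have hqu : q = u := by
            rw [mem_insert, mem_singleton] at hqT hu hbT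
            rcases hqT with rfl | rfl <;> rcases hu with rfl | rfl <;> rcases hbT with rfl | rfl <;>
              first | rfl | exact absurd rfl hqb | exact absurd rfl hub
          rw [hqu]
          exact huz.symm
        · exact hq q hqQ hqT)
      (fun Q' => if far Q' then (k : ℤ) * (k - 2) else 0)
      (by
        intro Q' hQ'
        rw [mem_KK] at hQ'
        have hQ'U : Q' ⊆ U := hQ'.1.trans sdiff_subset
        have hQ'R : ∀ a ∈ Q', a ∉ Q ∪ M := fun a ha => (mem_sdiff.1 (hQ'.1 ha)).2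
        by_cases hf : far Q'
        · -- all of `Q'`
          have hgood : Good G k (U \ Q') := by
            intro Q₃ hQ₃
            obtain ⟨c, hc, u, hu, hcu, huQ⟩ := isol_of (hQ₃.1.trans sdiff_subset) hQ₃.2.1 hU
            have hu' : u ∈ Q' := by
              by_contra hu'
              exact huQ (hQ₃.2.2 c hc u (mem_sdiff.2 ⟨hu, hu'⟩) hcu)
            obtain ⟨hc1, hc2⟩ := mem_sdiff.1 (hQ₃.1 hc)
            have hcR : c ∈ Q ∪ M := by
              by_contra hcR
              exact hc2 (hQ'.2.2 u hu' c (mem_sdiff.2 ⟨hc1, hcR⟩) hcu.symm)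
            have hcQ : c ∉ Q := fun h => hf c h u hu' hcu
            have hcM : c ∈ M := (mem_union.1 hcR).resolve_left hcQ
            obtain ⟨p, hp, hcp⟩ := hMc c hcM
            have hQ'' : Q ⊆ U \ Q' := fun a ha =>
              mem_sdiff.2 ⟨hQU ha, fun h => hQ'R a h (mem_union_left _ ha)⟩
            obtain ⟨q, hq, hqp⟩ : ∃ q ∈ Q, q ≠ p := by
              apply exists_mem_ne
              rw [hQ.1]; omega
            have hq3 : q ∈ Q₃ := hQ₃.2.2 c hc q (hQ'' hq) (hcp.2 q hq hqp)
            have hsub : Q ⊆ Q₃ := by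
              intro b hb
              by_cases hqb : q = b
              · rw [← hqb]; exact hq3
              · exact hQ₃.2.2 q hq3 b (hQ'' hb) (hQ.2 q hq b hb hqb)
            have heq : Q = Q₃ := eq_of_subset_of_card_le hsub (by rw [hQ₃.2.1.1, hQ.1])
            rw [← heq] at hc
            exact hcQ hc
          have hcl' := clones hk hfree hU IH NC hQ'U hQ'.2.1 hgood
          refine ⟨Q', subset_rfl, ?_, ?_⟩
          · intro u hu v hv huv
            obtain ⟨y, hy, hyc⟩ := hcl' u hu
            have hyv := hyc.2 v hv huv.ne.symm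
            obtain ⟨hy1, hy2⟩ := mem_sdiff.1 hy
            have hyR : y ∈ Q ∪ M := by
              by_contra hyR
              exact hy2 (hQ'.2.2 v hv y (mem_sdiff.2 ⟨hy1, hyR⟩) hyv.symm)
            have hyQ : y ∉ Q := fun h => hf y h v hv hyv
            refine ⟨y, hMRT y ((mem_union.1 hyR).resolve_left hyQ), fun h => ?_⟩
            exact hyc.1 (h.2 hyv)
          · rw [if_pos hf, hQ'.2.1.1]
            linarith
        · rw [if_neg hf]
          have hQ'Q : Q' ⊆ U \ Q := fun a ha =>
            mem_sdiff.2 ⟨hQ'U ha, fun h => hQ'R a ha (mem_union_left _ h)⟩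
          obtain ⟨a, ha, y, hy, hay, hyQ'⟩ := isol_of hQ'Q hQ'.2.1 hUQ
          obtain ⟨hy1, hy2⟩ := mem_sdiff.1 hy
          have hyM : y ∈ M := by
            by_contra hyM
            refine hyQ' (hQ'.2.2 a ha y (mem_sdiff.2 ⟨hy1, fun h => ?_⟩) hay)
            rcases mem_union.1 h with h | h
            · exact hy2 h
            · exact hyM h
          obtain ⟨b, hb, hyb⟩ := exists_nadj hfree hQ'.2.1 y
          have hab : a ≠ b := fun h => hyb (h ▸ hay.symm)
          refine ⟨{a, b}, ?_, ?_, ?_⟩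
          · intro c hc
            rw [mem_insert, mem_singleton] at hc
            rcases hc with rfl | rfl
            · exact ha
            · exact hb
          · intro c hc d hd hcd
            exact ⟨y, hMRT y hyM, pair_sep hay.symm hyb c hc d hd hcd⟩
          · rw [card_pair hab]
            push_cast
            linarith)
    have h1 := NC S hS
    have h2 : ∑ Q' ∈ KK G k (U \ (Q ∪ M)), (if far Q' then (k : ℤ) * (k - 2) else 0) =
        k * (k - 2) * N := by
      rw [← sum_filter, sum_const, hN]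
      simp only [nsmul_eq_mul]
      ring
    rw [h2, hcardR, card_pair ht] at hcS
    push_cast at hcS
    linarith
  -- arithmetic
  have hMk : (k : ℤ) ≤ M.card := by exact_mod_cast hcardM
  have hN0 : (0 : ℤ) ≤ N := by positivity
  rcases Nat.eq_zero_or_pos N with h0 | h0
  · rw [h0] at opt1
    push_cast at opt1
    nlinarith
  · have hN1 : (1 : ℤ) ≤ N := by exact_mod_cast h0
    have h5 : (0 : ℤ) ≤ (k : ℤ) - 3 := by linarith
    have e1 : ((k : ℤ) - 2) * (k * (k - 2) * N) =
        k * N + k * N * (((k : ℤ) - 3) * (k - 1)) := by ring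
    have e2 : 0 ≤ k * N * (((k : ℤ) - 3) * (k - 1)) := by
      have : (0 : ℤ) ≤ (k : ℤ) - 1 := by linarith
      positivity
    have h4 : ((k : ℤ) - 2) * ((k : ℤ) - 1 + k * (k - 2) * N) ≤ ((k : ℤ) - 2) * M.card :=
      mul_le_mul_of_nonneg_left (by linarith) (by linarith)
    have h6 : ((k : ℤ) - 2) * ((k : ℤ) - 1 + k * (k - 2) * N) =
        ((k : ℤ) - 2) * (k - 1) + ((k : ℤ) - 2) * (k * (k - 2) * N) := by ring
    have h7 : (k : ℤ) - 1 ≤ ((k : ℤ) - 2) * (k - 1) := by
      have : ((k : ℤ) - 2) * (k - 1) = (k - 1) + (k - 3) * (k - 1) := by ring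
      have h8 : (0 : ℤ) ≤ (k - 3) * (k - 1) := mul_nonneg h5 (by linarith)
      linarith
    have h9 : (1 : ℤ) + N ≤ k * N := by
      have : (k : ℤ) * N = N + (k - 1) * N := by ring
      have h8 : (1 : ℤ) * 1 ≤ (k - 1) * N := mul_le_mul (by linarith) hN1 (by norm_num) (by linarith)
      linarith
    linarith

end Run7.h212.LMD
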